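import Pool.Agent.MP_5c28a4_al.H13S.Base
import Pool.Agent.MP_5c28a4_al.H81S.Ded

/-!
The group form of the annihilator lemma, and the abelian case of claim T.
-/

set_option autoImplicit false

namespace Pool.Agent.MP_5c28a4_al.H89S.StrA

open scoped commutatorElement

theorem alg (hS : XSec) (hW : XWord) (hA : XAl) : XAlg := by
  intro N _ K H H₀ D₀ c r w hfg hK hb hH hH₀ h0 hc hHK hD₀ hfi hw
  obtain ⟨M, _, σ, f, hs⟩ := hS N H H₀ hH hH₀ h0 hc
  obtain ⟨e, he, hex⟩ := hb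
  have htame : Tame (nonZeroDivisors ℤ) σ K := by
    refine ⟨e, mem_nonZeroDivisors_of_ne_zero (by exact_mod_cast he.ne'), c, ?_⟩
    rw [kill_iff]
    intro l hl hy
    refine LinearMap.ext fun a => ?_
    obtain ⟨x, hx, rfl⟩ := hs.surj a
    obtain ⟨y, hy1, hy2⟩ := hs.wd_itc hH le_rfl (D := K) l hy hx
    have hyK : y ∈ K.lowerCentralSeries c := by
      rw [lcs_eq_itc, ← hl]; exact itc_mono hHK le_rfl _ hy1
    have hyH : y ∈ H := itc_le hH le_rfl K _ hy1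
    rw [LinearMap.smul_apply, LinearMap.zero_apply, ← hy2, natCast_zsmul, ← hs.pow hyH,
      hex y hyK, hs.one]
  obtain ⟨g, hg, hgr⟩ := hW.poly r w hw
  obtain ⟨m, D, n, S, hm, hD, hDf, hSD, hle⟩ := hA N M σ K D₀ g hfg hK htame hD₀ hfi hg
  refine ⟨m, D, n, S, hm, hD, hDf, hSD, fun x hx => ?_⟩
  have hpH := pw_le H m
  have hxH : x ∈ H := itc_le hH hpH D n hx
  refine hs.mem_sup hxH ?_
  have h1 := hs.itc_aug hH hpH D n x hx
  have h2 : f '' (pw H m) ⊆ {v | ∃ x, v = m • x} := by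
    have : pw H m ≤ hs.pre (LinearMap.range (m • (LinearMap.id : M →ₗ[ℤ] M))) :=
      pw_le_of fun x hx => ⟨H.pow_mem hx m, f x, by rw [hs.pow hx]; rfl⟩
    rintro _ ⟨y, hy, rfl⟩
    obtain ⟨v, hv⟩ := (this hy).2
    exact ⟨v, hv.symm⟩
  have h3 := hle (aug_mono subset_rfl h2 n h1)
  refine (iSup₂_le fun z hz => ?_ : _ ≤ hs.img _) h3
  intro v hv
  obtain ⟨x', hx', rfl⟩ := hs.surj v
  refine ⟨x', Subgroup.subset_closure (Set.mem_biUnion hz ⟨hx', fun k => ?_⟩), hx', rfl⟩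
  obtain ⟨a, ha⟩ := hgr N M σ z k hv
  obtain ⟨c', hc', rfl⟩ := hs.surj a
  refine ⟨c', hc', (hs.eq_iff hx' (Ut3A.evz_mem hc' (nz_of_normal hH z) _)).1 ?_⟩
  rw [hW.val N M σ f H H₀ hH hs z _ c' hc', ha]

theorem ta (hS : XSum) (hA : XAlg) : XTA := by
  intro Λ u hI N A _ _ ρ K B c hfg hu hK hb hB hBK hcm
  obtain ⟨r, w, a, n0, hw, ha, -, hid⟩ := hI
  obtain ⟨huz, -⟩ := hid N A ρ hu
  obtain ⟨m, D, n, S, hm, hD, hDf, -, hle⟩ := hA N K B ⊥ ⊤ c r w hfg hK hb hB inferInstance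
    bot_le (cm_iff.1 hcm).le hBK inferInstance inferInstance hw
  refine ⟨m, D, n, hm, hD, hDf, ?_⟩
  have key : ∀ z : N, Tame Λ ρ (cov B ⊥ w z) := fun z => by
    refine ⟨a, ha, r, ?_⟩
    rw [kill_iff]
    intro l hl hy
    obtain ⟨v, rfl⟩ : ∃ v : Fin r → N, l = List.ofFn v :=
      ⟨fun k => l.get (k.cast hl.symm), by subst hl; simp⟩
    choose y hy1 hy2 using fun k : Fin r => (hy (v k) (List.mem_ofFn.2 ⟨k, rfl⟩)).2 k
    have : v = fun k => evz (y k) z (w k) := funext fun k => by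
      have := hy2 k
      rwa [Subgroup.mem_bot, mul_inv_eq_one] at this
    rw [this]
    exact huz B z y hcm (nz_of_normal hB z) hy1
  refine tame_mono (hS.sum Λ N A ρ B S (fun z => cov B ⊥ w z) hcm (fun z x hx => hx.1)
    fun z => key z) fun x hx => ?_
  have h1 := hle hx
  rw [sup_bot_eq] at h1
  refine Subgroup.closure_mono ?_ h1
  exact Set.iUnion₂_subset fun z hz => Set.subset_iUnion_of_subset ⟨z, hz⟩ subset_rfl

end Pool.Agent.MP_5c28a4_al.H89S.StrA
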