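import Pool.Agent.MP_5c28a4_al.H9S.NiC

/-!
The group ring of a power of a finitely generated virtually nilpotent group is Noetherian over
the symmetric elements.
-/

set_option autoImplicit false

namespace Pool.Agent.MP_5c28a4_al.H89S

namespace NiA

open MonoidAlgebra

variable {Γ : Type} [Group Γ] {m : ℕ}

/-- the tuple of powers, as a homomorphism -/
def xh (t : Γ) : (Fin m → Multiplicative ℕ) →* (Fin m → Γ) where
  toFun a l := t ^ (a l).toAdd
  map_one' := funext fun _ => by simp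
  map_mul' _ _ := funext fun _ => by simp [pow_add]

theorem rel (K : Subgroup Γ) {t : Γ} (ht : t ∈ K) (l : Fin m) :
    ∃ e : ℕ → QQ (Fin m → Γ), (∀ k, e k ∈ (AA m K : Set (QQ (Fin m → Γ)))) ∧
      XX t (Pi.single l m) = -∑ k ∈ Finset.range m, XX t (Pi.single l k) * e k := by
  classical
  let C := MonoidAlgebra ℤ (Fin m → Multiplicative ℕ)
  let φ : C →+* QQ (Fin m → Γ) := mapDomainRingHom ℤ (xh t)
  let z : Fin m → C := fun j => of ℤ _ (Pi.mulSingle j (Multiplicative.ofAdd 1))
  let p : Polynomial C := ∏ j, (Polynomial.X - Polynomial.C (z j))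
  have hφ : ∀ g, φ (of ℤ _ g) = of ℤ _ (xh t g) := fun g => mapDomain_single
  have h1 : ∀ σ : Equiv.Perm (Fin m), ∀ x : C, ac σ (φ x) = φ (ac σ x) := by
    intro σ x
    have : (ac σ).comp φ = φ.comp (ac σ) :=
      (mapDomainRingHom_comp (R := ℤ) (pm σ) (xh t)).symm.trans
        (mapDomainRingHom_comp (R := ℤ) (xh t) (pm σ))
    exact congrArg (fun f : _ →+* _ => f x) this
  have h2 : ∀ x : C, φ x ∈ Su (KH m K) := by
    intro x
    have h3 : Su (Set.univ : Set (Fin m → Multiplicative ℕ)) ≤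
        (Su (KH m K)).comap φ.toAddMonoidHom.toIntLinearMap := by
      refine su_le fun g _ => ?_
      change φ (of ℤ _ g) ∈ Su (KH m K)
      rw [hφ]
      exact of_mem_su fun _ => pow_mem ht _
    exact h3 (mem_supported.2 (Set.subset_univ _))
  have h3 : ∀ σ : Equiv.Perm (Fin m), ∀ j, ac σ (z j) = z (σ.symm j) := by
    intro σ j
    simp only [z]
    rw [ac_of]
    congr 1
    ext i
    by_cases h : σ i = j
    · subst h
      simp
    · have h' : i ≠ σ.symm j := fun e => h (by rw [e]; simp)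
      simp [Pi.mulSingle_eq_of_ne h, Pi.mulSingle_eq_of_ne h']
  have h4 : ∀ σ : Equiv.Perm (Fin m), p.map (ac σ) = p := by
    intro σ
    simp only [p, Polynomial.map_prod, Polynomial.map_sub, Polynomial.map_X, Polynomial.map_C, h3]
    exact Equiv.prod_comp σ.symm fun j => Polynomial.X - Polynomial.C (z j)
  have h5 : p.Monic := Polynomial.monic_prod_of_monic _ _ fun j _ => Polynomial.monic_X_sub_C _
  have h6 : p.natDegree = m := by
    simp only [p]
    rw [Polynomial.natDegree_prod_of_monic _ _ fun j _ => Polynomial.monic_X_sub_C _]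
    simp
  have h7 : p.eval (z l) = 0 := by
    simp only [p, Polynomial.eval_prod]
    exact Finset.prod_eq_zero (Finset.mem_univ l) (by simp)
  have h8 : p.coeff m = 1 := by
    have := h5.coeff_natDegree
    rwa [h6] at this
  rw [Polynomial.eval_eq_sum_range, h6, Finset.sum_range_succ, h8, one_mul] at h7
  have h9 : ∀ k, φ (z l ^ k) = XX t (Pi.single l k) := by
    intro k
    simp only [z]
    rw [← map_pow, hφ, XX]
    congr 1
    ext i
    by_cases h : i = l
    · subst h
      simp [xh, xx]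
    · simp [xh, xx, Pi.mulSingle_eq_of_ne h, Pi.single_eq_of_ne h]
  refine ⟨fun k => φ (p.coeff k), fun k => ⟨h2 _, fun σ => ?_⟩, ?_⟩
  · rw [h1, ← Polynomial.coeff_map, h4]
  · have := congrArg φ h7
    rw [map_add, map_sum, map_zero, h9] at this
    rw [eq_neg_iff_add_eq_zero, add_comm, ← this]
    congr 1
    refine Finset.sum_congr rfl fun k _ => ?_
    rw [mul_comm (p.coeff k), map_mul, h9]

theorem xX_mem (K : Subgroup Γ) {t : Γ} (ht : t ∈ K) (a : Fin m → ℕ) :
    XX t a ∈ sp (AA m K : Set (QQ (Fin m → Γ))) (XX t '' {b | ∀ l, b l < m}) := by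
  classical
  induction h : ∑ l, a l using Nat.strong_induction_on generalizing a with
  | h n ih =>
    by_cases ha : ∀ l, a l < m
    · have := mem_sp (T := XX t '' {b | ∀ l, b l < m}) ⟨a, ha, rfl⟩ (aa_one K)
      rwa [mul_one] at this
    · obtain ⟨l, hl⟩ := not_forall.1 ha
      obtain ⟨e, he, h1⟩ := rel K ht l
      have h2 : a = (a - Pi.single l m) + Pi.single l m := by
        ext i
        by_cases hi : i = l
        · subst hi
          simp only [Pi.add_apply, Pi.sub_apply, Pi.single_eq_same]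
          omega
        · simp [Pi.single_eq_of_ne hi]
      have h3 : ∑ i, (a - Pi.single l m : Fin m → ℕ) i + m = n := by
        rw [← h]
        conv_rhs => rw [h2]
        simp [Finset.sum_add_distrib]
      rw [h2, xX_add, h1, mul_neg, Finset.mul_sum]
      refine neg_mem (Submodule.sum_mem _ fun k hk => ?_)
      rw [← mul_assoc, ← xX_add]
      refine cl_sp (aa_mul K) _ (ih _ ?_ _ rfl) _ (he k)
      have := Finset.mem_range.1 hk
      simp only [Pi.add_apply, Finset.sum_add_distrib, Finset.sum_pi_single', Finset.mem_univ,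
        if_true]
      omega

theorem pp_cyc {H : Subgroup Γ} {t : Γ} (hn : Nz t H) (hi : ∀ n : ℤ, t ^ n ∈ H → n = 0)
    (hp : PP m H) : PP m (H ⊔ Subgroup.zpowers t) := by
  obtain ⟨T, hT, _, hT2⟩ := Noe.fg hp (cl_kh H) (aa_one H) (aa_mul H)
  have ht : t ∈ H ⊔ Subgroup.zpowers t := Subgroup.mem_sup_right (Subgroup.mem_zpowers t)
  have hB : ({b | ∀ l, b l < m} : Set (Fin m → ℕ)).Finite :=
    Set.Finite.pi' fun _ => Set.finite_lt_nat m
  let T' : Set (QQ (Fin m → Γ)) := Set.image2 (fun b r => XX t b * r) {b | ∀ l, b l < m} T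
  refine ((noe_aa hn hi hp).fin (aa_mul _) T' (hB.image2 _ hT)).mono subset_rfl
    (su_le fun g hg => ?_)
  have hcl : Cl (AA m (H ⊔ Subgroup.zpowers t) : Set (QQ (Fin m → Γ)))
      (sp (AA m (H ⊔ Subgroup.zpowers t) : Set (QQ (Fin m → Γ))) T') := cl_sp (aa_mul _)
  obtain ⟨k, hk⟩ := exists_w hn hg
  obtain ⟨a, ha⟩ := hk k le_rfl
  have h1 : of ℤ (Fin m → Γ) g = of ℤ (Fin m → Γ) (g * (fun _ => t ^ k) * (xx t a)⁻¹) * XX t a *
      of ℤ (Fin m → Γ) fun _ => (t ^ k)⁻¹ := by
    rw [XX, ← map_mul, ← map_mul]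
    congr 1
    ext l
    simp
  rw [h1]
  refine hcl _ ?_ _ (aa_const (inv_mem (pow_mem ht k)))
  have h2 : of ℤ (Fin m → Γ) (g * (fun _ => t ^ k) * (xx t a)⁻¹) ∈ Su (KH m H) := of_mem_su ha
  generalize of ℤ (Fin m → Γ) (g * (fun _ => t ^ k) * (xx t a)⁻¹) = y at h2
  have h3 : sp (AA m (H ⊔ Subgroup.zpowers t) : Set (QQ (Fin m → Γ)))
      (XX t '' {b | ∀ l, b l < m}) ≤
      (sp (AA m (H ⊔ Subgroup.zpowers t) : Set (QQ (Fin m → Γ))) T').comap
        (LinearMap.mulLeft ℤ y) := by
    refine sp_le ?_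
    rintro _ ⟨b, hb, rfl⟩ s hs
    have h4 : sp (AA m H : Set (QQ (Fin m → Γ))) T ≤
        (sp (AA m (H ⊔ Subgroup.zpowers t) : Set (QQ (Fin m → Γ))) T').comap
          (LinearMap.mulLeft ℤ (XX t b)) := by
      refine sp_le fun r hr u hu => ?_
      simp only [Submodule.mem_comap, LinearMap.mulLeft_apply, ← mul_assoc]
      exact mem_sp ⟨b, hb, r, hr, rfl⟩ (aa_mono le_sup_left hu)
    have h5 := hcl _ (h4 (hT2 (conj_kh' hn b h2))) s hs
    simpa only [Submodule.mem_comap, LinearMap.mulLeft_apply, mul_assoc, xX_xI'] using h5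
  exact h3 (xX_mem _ ht a)

end NiA

open NiA in
theorem ni (hB : BVn) : SNI := by
  intro Γ _ hfg hvn m c hc h
  have h1 : PP m (⊤ : Subgroup Γ) := hB.ind Γ hfg hvn (PP m) pp_bot
    (fun _ _ h1 h2 h3 => pp_fin h1 h2 h3) fun _ _ h1 h2 h3 => pp_cyc h1 h2 h3
  refine h1 c hc (fun n x _ => MonoidAlgebra.mem_supported.2 fun _ _ _ => Subgroup.mem_top _)
    fun n x hx s hs => h n x hx s fun σ g => ?_
  have := ac_coeff σ s g
  rwa [hs.2 σ] at this

end Pool.Agent.MP_5c28a4_al.H89S
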