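import Pool.Agent.MP_5c28a4_al.H89S.Spec

/-!
Chain conditions for additive subgroups of a ring that are closed under right multiplication by
a set, and two order lemmas.
-/

set_option autoImplicit false

namespace Pool.Agent.MP_5c28a4_al.H89S

namespace NiA

section Gen

variable {R : Type} [Ring R]

/-- closed under right multiplication by `A` -/
def Cl (A : Set R) (L : Submodule ℤ R) : Prop := ∀ x ∈ L, ∀ s ∈ A, x * s ∈ L

/-- ascending chain condition below `M` -/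
def Noe (A : Set R) (M : Submodule ℤ R) : Prop := ∀ c : ℕ → Submodule ℤ R, Monotone c →
  (∀ n, c n ≤ M) → (∀ n, Cl A (c n)) → ∃ n, ∀ k, n ≤ k → c k = c n

/-- the span of the products `r * s` -/
def sp (A T : Set R) : Submodule ℤ R := Submodule.span ℤ {y | ∃ r ∈ T, ∃ s ∈ A, y = r * s}

theorem mem_sp {A T : Set R} {r s : R} (hr : r ∈ T) (hs : s ∈ A) : r * s ∈ sp A T :=
  Submodule.subset_span ⟨r, hr, s, hs, rfl⟩

theorem sp_le {A T : Set R} {L : Submodule ℤ R} (h : ∀ r ∈ T, ∀ s ∈ A, r * s ∈ L) :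
    sp A T ≤ L := by
  refine Submodule.span_le.2 ?_
  rintro _ ⟨r, hr, s, hs, rfl⟩
  exact h r hr s hs

theorem sp_mono {A T T' : Set R} (h : T ⊆ T') : sp A T ≤ sp A T' :=
  sp_le fun _ hr _ hs => mem_sp (h hr) hs

theorem cl_sp {A B T : Set R} (h : ∀ s ∈ B, ∀ u ∈ A, s * u ∈ B) : Cl A (sp B T) := by
  intro x hx u hu
  have : sp B T ≤ (sp B T).comap (LinearMap.mulRight ℤ u) := by
    refine sp_le fun r hr s hs => ?_
    simp only [Submodule.mem_comap, LinearMap.mulRight_apply, mul_assoc]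
    exact mem_sp hr (h s hs u hu)
  exact this hx

theorem Noe.mono {A A' : Set R} {M M' : Submodule ℤ R} (h : Noe A M) (hA : A ⊆ A')
    (hM : M' ≤ M) : Noe A' M' :=
  fun c hc h1 h2 => h c hc (fun n => (h1 n).trans hM) fun n x hx s hs => h2 n x hx s (hA hs)

theorem noe_of_fg (A : Set R) {M : Submodule ℤ R} (h : M.FG) : Noe A M := by
  intro c hc h1 _
  have : IsNoetherian ℤ M := isNoetherian_of_fg_of_noetherian M h
  obtain ⟨n, hn⟩ := monotone_stabilizes_iff_noetherian.2 this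
    ⟨fun n => (c n).comap M.subtype, fun a b hab => Submodule.comap_mono (hc hab)⟩
  refine ⟨n, fun k hk => le_antisymm (fun x hx => ?_) (hc hk)⟩
  have h2 := hn k hk
  have h3 : (⟨x, h1 k hx⟩ : M) ∈ (c k).comap M.subtype := hx
  have h4 : (c n).comap M.subtype = (c k).comap M.subtype := h2
  rw [← h4] at h3
  exact h3

theorem Noe.sup {A : Set R} {M₁ M₂ : Submodule ℤ R} (h₁ : Noe A M₁) (h₂ : Noe A M₂)
    (c₁ : Cl A M₁) (c₂ : Cl A M₂) : Noe A (M₁ ⊔ M₂) := by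
  intro c hc h1 h2
  obtain ⟨n₁, hn₁⟩ := h₁ (fun n => c n ⊓ M₁) (fun a b hab => inf_le_inf_right _ (hc hab))
    (fun n => inf_le_right) fun n x hx s hs => ⟨h2 n x hx.1 s hs, c₁ x hx.2 s hs⟩
  obtain ⟨n₂, hn₂⟩ := h₂ (fun n => (c n ⊔ M₁) ⊓ M₂)
    (fun a b hab => inf_le_inf_right _ (sup_le_sup_right (hc hab) _)) (fun n => inf_le_right)
    fun n x hx s hs => by
      refine ⟨?_, c₂ x hx.2 s hs⟩
      obtain ⟨y, hy, z, hz, rfl⟩ := Submodule.mem_sup.1 hx.1
      rw [add_mul]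
      exact Submodule.add_mem_sup (h2 n y hy s hs) (c₁ z hz s hs)
  refine ⟨max n₁ n₂, fun k hk => le_antisymm (fun x hx => ?_) (hc hk)⟩
  obtain ⟨y, hy, z, hz, rfl⟩ := Submodule.mem_sup.1 (h1 k hx)
  have e1 : (c k ⊔ M₁) ⊓ M₂ = (c (max n₁ n₂) ⊔ M₁) ⊓ M₂ :=
    (hn₂ k ((le_max_right _ _).trans hk)).trans (hn₂ _ (le_max_right _ _)).symm
  have e2 : c k ⊓ M₁ = c (max n₁ n₂) ⊓ M₁ :=
    (hn₁ k ((le_max_left _ _).trans hk)).trans (hn₁ _ (le_max_left _ _)).symm
  have hz' : z ∈ (c k ⊔ M₁) ⊓ M₂ := by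
    refine ⟨?_, hz⟩
    have : z = (y + z) - y := by abel
    rw [this]
    exact Submodule.sub_mem _ (Submodule.mem_sup_left hx) (Submodule.mem_sup_right hy)
  rw [e1] at hz'
  obtain ⟨u, hu, v, hv, huv⟩ := Submodule.mem_sup.1 hz'.1
  have h3 : y + v ∈ c k ⊓ M₁ := by
    refine ⟨?_, M₁.add_mem hy hv⟩
    have : y + v = (y + z) - u := by rw [← huv]; abel
    rw [this]
    exact Submodule.sub_mem _ hx (hc hk hu)
  rw [e2] at h3
  have : y + z = (y + v) + u := by rw [← huv]; abel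
  rw [this]
  exact Submodule.add_mem _ h3.1 hu

theorem Noe.left {A : Set R} {M : Submodule ℤ R} (h : Noe A M) (hM : Cl A M) (r : R) :
    Noe A (M.map (LinearMap.mulLeft ℤ r)) := by
  intro c hc h1 h2
  obtain ⟨n, hn⟩ := h (fun n => (c n).comap (LinearMap.mulLeft ℤ r) ⊓ M)
    (fun a b hab => inf_le_inf_right _ (Submodule.comap_mono (hc hab))) (fun n => inf_le_right)
    fun n x hx s hs => by
      refine ⟨?_, hM x hx.2 s hs⟩
      have := h2 n _ hx.1 s hs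
      simpa [mul_assoc] using this
  refine ⟨n, fun k hk => le_antisymm (fun x hx => ?_) (hc hk)⟩
  obtain ⟨y, hy, rfl⟩ := h1 k hx
  have h3 : y ∈ (c k).comap (LinearMap.mulLeft ℤ r) ⊓ M := ⟨hx, hy⟩
  have h4 : (c k).comap (LinearMap.mulLeft ℤ r) ⊓ M = (c n).comap (LinearMap.mulLeft ℤ r) ⊓ M :=
    hn k hk
  rw [h4] at h3
  exact h3.1

theorem Noe.fin {A : Set R} {M : Submodule ℤ R} (h : Noe A M) (hM : Cl A M) (T : Set R)
    (hT : T.Finite) : Noe A (sp (M : Set R) T) := by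
  induction T, hT using Set.Finite.induction_on with
  | empty =>
    refine (noe_of_fg A Submodule.fg_bot).mono subset_rfl (sp_le fun r hr => hr.elim)
  | @insert r T _ _ ih =>
    refine ((h.left hM r).sup ih ?_ (cl_sp hM)).mono subset_rfl (sp_le fun u hu s hs => ?_)
    · rintro _ ⟨y, hy, rfl⟩ s hs
      exact ⟨y * s, hM y hy s hs, by simp [mul_assoc]⟩
    · rcases hu with rfl | hu
      · exact Submodule.mem_sup_left ⟨s, hs, rfl⟩
      · exact Submodule.mem_sup_right (mem_sp hu hs)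

theorem Noe.seq {A : Set R} {M : Submodule ℤ R} (h : Noe A M) (hM : Cl A M) (h1 : (1 : R) ∈ A)
    (hA : ∀ s ∈ A, ∀ u ∈ A, s * u ∈ A) (y : ℕ → R) (hy : ∀ n, y n ∈ M) :
    ∃ N, y N ∈ sp A (y '' Set.Iio N) := by
  obtain ⟨N, hN⟩ := h (fun n => sp A (y '' Set.Iio n))
    (fun a b hab => sp_mono (Set.image_mono (Set.Iio_subset_Iio hab)))
    (fun n => sp_le (by rintro _ ⟨i, _, rfl⟩ s hs; exact hM _ (hy i) s hs)) fun n => cl_sp hA
  refine ⟨N, ?_⟩
  have h2 : sp A (y '' Set.Iio (N + 1)) = sp A (y '' Set.Iio N) := hN (N + 1) (Nat.le_succ N)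
  rw [← h2]
  have := mem_sp (A := A) (T := y '' Set.Iio (N + 1)) ⟨N, Nat.lt_succ_self N, rfl⟩ h1
  rwa [mul_one] at this

theorem Noe.fg {A : Set R} {M : Submodule ℤ R} (h : Noe A M) (hM : Cl A M) (h1 : (1 : R) ∈ A)
    (hA : ∀ s ∈ A, ∀ u ∈ A, s * u ∈ A) : ∃ T : Set R, T.Finite ∧ T ⊆ M ∧ M ≤ sp A T := by
  classical
  by_contra hc
  have hc' : ∀ T : Finset R, ∃ x, (↑T : Set R) ⊆ M → x ∈ M ∧ x ∉ sp A ↑T := by
    intro T
    by_cases hT : (↑T : Set R) ⊆ M
    · by_contra h2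
      refine hc ⟨T, T.finite_toSet, hT, fun x hx => ?_⟩
      by_contra h3
      exact h2 ⟨x, fun _ => ⟨hx, h3⟩⟩
    · exact ⟨0, fun h2 => (hT h2).elim⟩
  choose f hf using hc'
  obtain ⟨T, hT0, hT⟩ : ∃ T : ℕ → Finset R, T 0 = ∅ ∧ ∀ n, T (n + 1) = insert (f (T n)) (T n) :=
    ⟨fun n => Nat.rec ∅ (fun _ S => insert (f S) S) n, rfl, fun _ => rfl⟩
  have hM' : ∀ n, ((T n : Finset R) : Set R) ⊆ (M : Set R) := by
    intro n
    induction n with
    | zero => intro x hx; simp [hT0] at hx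
    | succ n ih =>
      rw [hT, Finset.coe_insert]
      exact Set.insert_subset (hf _ ih).1 ih
  have hy : ∀ n, (fun i => f (T i)) '' Set.Iio n ⊆ ((T n : Finset R) : Set R) := by
    intro n
    induction n with
    | zero => rintro _ ⟨i, hi, rfl⟩; exact absurd hi (Nat.not_lt_zero i)
    | succ n ih =>
      rintro _ ⟨i, hi, rfl⟩
      rw [hT, Finset.coe_insert]
      rcases Nat.lt_succ_iff_lt_or_eq.1 hi with h2 | rfl
      · exact Or.inr (ih ⟨i, h2, rfl⟩)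
      · exact Or.inl rfl
  obtain ⟨N, hN⟩ := h.seq hM h1 hA (fun i => f (T i)) fun n => (hf _ (hM' n)).1
  exact (hf _ (hM' N)).2 (sp_mono (hy N) hN)

end Gen

section Ord

theorem subseq_one (v : ℕ → ℕ) : ∃ φ : ℕ → ℕ, StrictMono φ ∧
    ((∀ i j, i < j → v (φ i) = v (φ j)) ∨ ∀ i j, i < j → v (φ i) < v (φ j)) := by
  obtain ⟨g, hg | hg⟩ := exists_increasing_or_nonincreasing_subseq (· < ·) v
  · exact ⟨g, g.strictMono, Or.inr hg⟩
  · obtain ⟨g', hg' | hg'⟩ := exists_increasing_or_nonincreasing_subseq (· = ·) fun n => v (g n)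
    · exact ⟨fun n => g (g' n), g.strictMono.comp g'.strictMono, Or.inl hg'⟩
    · exfalso
      refine not_strictAnti_of_wellFoundedLT (fun n => v (g (g' n))) fun i j hij => ?_
      have h1 := hg _ _ (g'.strictMono hij)
      have h2 := hg' _ _ hij
      simp only at h1 h2 ⊢
      omega

theorem subseq {ι : Type} (s : Finset ι) (v : ι → ℕ → ℕ) : ∃ φ : ℕ → ℕ, StrictMono φ ∧ ∀ a ∈ s,
    (∀ i j, i < j → v a (φ i) = v a (φ j)) ∨ ∀ i j, i < j → v a (φ i) < v a (φ j) := by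
  classical
  induction s using Finset.induction_on with
  | empty => exact ⟨id, strictMono_id, fun a ha => absurd ha (Finset.notMem_empty a)⟩
  | insert a s _ ih =>
    obtain ⟨φ, hφ, h1⟩ := ih
    obtain ⟨ψ, hψ, h2⟩ := subseq_one fun n => v a (φ n)
    refine ⟨fun n => φ (ψ n), hφ.comp hψ, fun b hb => ?_⟩
    rcases Finset.mem_insert.1 hb with rfl | hb
    · exact h2
    · exact (h1 b hb).imp (fun h i j hij => h _ _ (hψ hij)) fun h i j hij => h _ _ (hψ hij)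

variable {m : ℕ}

theorem anti_of_max (a : Fin m → ℕ) (h : ∀ σ : Equiv.Perm (Fin m), toLex (a ∘ σ) ≤ toLex a) :
    Antitone a := by
  intro i j hij
  by_contra hc
  have h1 : a i < a j := lt_of_not_ge hc
  have h2 := Pi.lex_desc (f := a ∘ Equiv.swap i j) hij (by simpa using h1)
  have h3 : (a ∘ Equiv.swap i j) ∘ Equiv.swap i j = a := by
    ext l; simp
  rw [h3] at h2
  exact absurd (h (Equiv.swap i j)) (not_le_of_gt h2)

theorem max_of_anti (a : Fin m → ℕ) (h : Antitone a) (σ : Equiv.Perm (Fin m)) :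
    toLex (a ∘ σ) ≤ toLex a := by
  obtain ⟨τ, hτ⟩ := Finite.exists_max fun τ : Equiv.Perm (Fin m) => toLex (a ∘ τ)
  have h1 : Antitone (a ∘ τ) := anti_of_max _ fun ρ => hτ (τ * ρ)
  have h2 : a ∘ τ = a ∘ (1 : Equiv.Perm (Fin m)) := Tuple.unique_antitone h1 h
  have h3 := hτ σ
  rw [h2] at h3
  exact h3

end Ord

end NiA

end Pool.Agent.MP_5c28a4_al.H89S
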