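import Pool.Agent.MP_5c28a4_al.H9S.NiA

/-!
Supports, the action of the symmetric group on the group ring of a power, the finite index step
and the cosets of a cyclic extension.
-/

set_option autoImplicit false

namespace Pool.Agent.MP_5c28a4_al.H89S

namespace NiA

open MonoidAlgebra

section Supp

variable {K : Type} [Monoid K]

/-- elements supported in `S` -/
noncomputable abbrev Su (S : Set K) : Submodule ℤ (MonoidAlgebra ℤ K) := supported ℤ ℤ S

theorem su_le {S : Set K} {L : Submodule ℤ (MonoidAlgebra ℤ K)} (h : ∀ g ∈ S, of ℤ K g ∈ L) :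
    Su S ≤ L := by
  rw [Su, supported_eq_span_single]
  refine Submodule.span_le.2 ?_
  rintro _ ⟨g, hg, rfl⟩
  exact h g hg

theorem of_mem_su {S : Set K} {g : K} (h : g ∈ S) : of ℤ K g ∈ Su S := by
  rw [Su, supported_eq_span_single]
  exact Submodule.subset_span ⟨g, h, rfl⟩

theorem mul_mem_su {S T U : Set K} (h : ∀ g ∈ S, ∀ g' ∈ T, g * g' ∈ U) {x y : MonoidAlgebra ℤ K}
    (hx : x ∈ Su S) (hy : y ∈ Su T) : x * y ∈ Su U := by
  have h1 : Su S ≤ (Su U).comap (LinearMap.mulRight ℤ y) := by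
    refine su_le fun g hg => ?_
    have h2 : Su T ≤ (Su U).comap (LinearMap.mulLeft ℤ (of ℤ K g)) := by
      refine su_le fun g' hg' => ?_
      simp only [Submodule.mem_comap, LinearMap.mulLeft_apply]
      rw [← map_mul]
      exact of_mem_su (h g hg g' hg')
    exact h2 hy
  exact h1 hx

theorem conj_mem_su {S U : Set K} (u v : K) (h : ∀ g ∈ S, u * g * v ∈ U) {x : MonoidAlgebra ℤ K}
    (hx : x ∈ Su S) : of ℤ K u * x * of ℤ K v ∈ Su U := by
  refine mul_mem_su (S := (fun g => u * g) '' S) (T := {v}) ?_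
    (mul_mem_su (S := {u}) ?_ (of_mem_su rfl) hx) (of_mem_su rfl)
  · rintro _ ⟨g, hg, rfl⟩ _ rfl
    exact h g hg
  · rintro _ rfl g hg
    exact ⟨g, hg, rfl⟩

end Supp

section Act

variable {M : Type} [Monoid M] {m : ℕ}

/-- permutation of the coordinates -/
def pm (σ : Equiv.Perm (Fin m)) : (Fin m → M) →* (Fin m → M) where
  toFun g := g ∘ σ
  map_one' := rfl
  map_mul' _ _ := rfl

/-- permutation of the coordinates, on the monoid ring -/
noncomputable def ac (σ : Equiv.Perm (Fin m)) :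
    MonoidAlgebra ℤ (Fin m → M) →+* MonoidAlgebra ℤ (Fin m → M) := mapDomainRingHom ℤ (pm σ)

theorem ac_of (σ : Equiv.Perm (Fin m)) (g : Fin m → M) :
    ac σ (of ℤ _ g) = of ℤ _ (g ∘ σ) := by
  simp [ac, pm]

theorem ac_coeff (σ : Equiv.Perm (Fin m)) (x : MonoidAlgebra ℤ (Fin m → M)) (g : Fin m → M) :
    (ac σ x).coeff (g ∘ σ) = x.coeff g := by
  have hi : Function.Injective fun g : Fin m → M => g ∘ σ := σ.surjective.injective_comp_right
  exact Finsupp.mapDomain_apply hi x.coeff g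

theorem ac_ac (σ τ : Equiv.Perm (Fin m)) (x : MonoidAlgebra ℤ (Fin m → M)) :
    ac σ (ac τ x) = ac (τ * σ) x := by
  have : (ac σ).comp (ac τ) = ac (M := M) (τ * σ) := by
    rw [ac, ac, ac, ← mapDomainRingHom_comp]
    rfl
  exact congrArg (fun f : _ →+* _ => f x) this

theorem ac_one (x : MonoidAlgebra ℤ (Fin m → M)) : ac 1 x = x := by
  have : ac (M := M) (1 : Equiv.Perm (Fin m)) = RingHom.id _ := by
    rw [ac, ← mapDomainRingHom_id]
    rfl
  rw [this]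
  rfl

theorem ac_mem_su (σ : Equiv.Perm (Fin m)) {S T : Set (Fin m → M)} (h : ∀ g ∈ S, g ∘ σ ∈ T)
    {x : MonoidAlgebra ℤ (Fin m → M)} (hx : x ∈ Su S) : ac σ x ∈ Su T := by
  have h1 : Su S ≤ (Su T).comap (ac σ).toAddMonoidHom.toIntLinearMap := by
    refine su_le fun g hg => ?_
    change ac σ (of ℤ _ g) ∈ Su T
    rw [ac_of]
    exact of_mem_su (h g hg)
  exact h1 hx

end Act

section Grp

variable {Γ : Type} [Group Γ] (m : ℕ)

/-- the power of a subgroup -/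
def KH (H : Subgroup Γ) : Set (Fin m → Γ) := {g | ∀ l, g l ∈ H}

/-- the symmetric elements supported in the power of `H` -/
noncomputable def AA (H : Subgroup Γ) : Submodule ℤ (QQ (Fin m → Γ)) where
  carrier := {s | s ∈ Su (KH m H) ∧ ∀ σ, ac σ s = s}
  add_mem' ha hb := ⟨add_mem ha.1 hb.1, fun σ => by rw [map_add, ha.2, hb.2]⟩
  zero_mem' := ⟨zero_mem _, fun σ => map_zero _⟩
  smul_mem' c _ ha := ⟨Submodule.smul_mem _ c ha.1, fun σ => by rw [map_zsmul, ha.2]⟩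

/-- the statement proved by induction on the subgroup -/
def PP (H : Subgroup Γ) : Prop := Noe (AA m H : Set (QQ (Fin m → Γ))) (Su (KH m H))

variable {m}

theorem kh_mul {H : Subgroup Γ} {x y : QQ (Fin m → Γ)} (hx : x ∈ Su (KH m H))
    (hy : y ∈ Su (KH m H)) : x * y ∈ Su (KH m H) :=
  mul_mem_su (S := KH m H) (T := KH m H) (U := KH m H)
    (fun _ hg _ hh l => H.mul_mem (hg l) (hh l)) hx hy

theorem aa_one (H : Subgroup Γ) : (1 : QQ (Fin m → Γ)) ∈ (AA m H : Set (QQ (Fin m → Γ))) :=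
  ⟨of_mem_su (g := 1) fun _ => H.one_mem, fun _ => map_one _⟩

theorem aa_mul (H : Subgroup Γ) : ∀ s ∈ (AA m H : Set (QQ (Fin m → Γ))),
    ∀ u ∈ (AA m H : Set (QQ (Fin m → Γ))), s * u ∈ (AA m H : Set (QQ (Fin m → Γ))) :=
  fun _ hs _ hu => ⟨kh_mul hs.1 hu.1, fun σ => by rw [map_mul, hs.2, hu.2]⟩

theorem aa_mono {H H' : Subgroup Γ} (h : H ≤ H') :
    (AA m H : Set (QQ (Fin m → Γ))) ⊆ (AA m H' : Set (QQ (Fin m → Γ))) :=
  fun _ hs => ⟨supported_mono (s := KH m H) (t := KH m H') (fun _ hg l => h (hg l)) hs.1, hs.2⟩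

theorem cl_kh (H : Subgroup Γ) : Cl (AA m H : Set (QQ (Fin m → Γ))) (Su (KH m H)) :=
  fun _ hx _ hs => kh_mul hx hs.1

theorem aa_const {H : Subgroup Γ} {t : Γ} (h : t ∈ H) :
    of ℤ (Fin m → Γ) (fun _ => t) ∈ (AA m H : Set (QQ (Fin m → Γ))) :=
  ⟨of_mem_su fun _ => h, fun σ => ac_of σ _⟩

theorem pp_bot : PP m (⊥ : Subgroup Γ) := by
  refine (noe_of_fg _ (Submodule.fg_span_singleton (1 : QQ (Fin m → Γ)))).mono subset_rfl
    (su_le fun g hg => ?_)
  have : g = 1 := funext fun l => hg l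
  rw [this, map_one]
  exact Submodule.mem_span_singleton_self _

theorem pp_fin {H H' : Subgroup Γ} (h : H ≤ H') (hi : H.relIndex H' ≠ 0) (hp : PP m H) :
    PP m H' := by
  have hf : Finite (H' ⧸ H.subgroupOf H') := Subgroup.index_ne_zero_iff_finite.1 hi
  let T : Set (QQ (Fin m → Γ)) :=
    Set.range fun q : Fin m → H' ⧸ H.subgroupOf H' => of ℤ (Fin m → Γ) fun l => ((q l).out : Γ)
  refine (Noe.fin hp (cl_kh H) T (Set.finite_range _)).mono (aa_mono h) (su_le fun g hg => ?_)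
  let q : Fin m → H' ⧸ H.subgroupOf H' := fun l => QuotientGroup.mk ⟨g l, hg l⟩
  have h1 : of ℤ (Fin m → Γ) g = of ℤ (Fin m → Γ) (fun l => ((q l).out : Γ)) *
      of ℤ (Fin m → Γ) fun l => ((q l).out : Γ)⁻¹ * g l := by
    rw [← map_mul]
    congr 1
    ext l
    simp
  rw [h1]
  refine mem_sp ⟨q, rfl⟩ (of_mem_su fun l => ?_)
  have h2 : (QuotientGroup.mk (q l).out : H' ⧸ H.subgroupOf H') =
      QuotientGroup.mk ⟨g l, hg l⟩ := QuotientGroup.out_eq' _
  exact Subgroup.mem_subgroupOf.1 (QuotientGroup.eq.1 h2)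

/-- the tuple of powers of `t` -/
def xx (t : Γ) (a : Fin m → ℕ) : Fin m → Γ := fun l => t ^ a l

/-- the coset of position `a` -/
def W (H : Subgroup Γ) (t : Γ) (a : Fin m → ℕ) : Set (Fin m → Γ) :=
  {g | ∀ l, g l * (t ^ a l)⁻¹ ∈ H}

theorem xx_add (t : Γ) (a b : Fin m → ℕ) : xx t (a + b) = xx t a * xx t b :=
  funext fun _ => pow_add _ _ _

variable {H : Subgroup Γ} {t : Γ}

theorem nz_zpow (hn : Nz t H) (n : ℤ) {h : Γ} (hh : h ∈ H) : t ^ n * h * (t ^ n)⁻¹ ∈ H := by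
  have h1 : t ∈ Subgroup.normalizer (H : Set Γ) := by
    refine Subgroup.mem_normalizer_iff.2 fun x => ⟨fun hx => (hn x hx).1, fun hx => ?_⟩
    have := (hn _ hx).2
    simpa [mul_assoc] using this
  exact (Subgroup.mem_normalizer_iff.1 (zpow_mem h1 n) h).1 hh

theorem nz_pow (hn : Nz t H) (n : ℕ) {h : Γ} (hh : h ∈ H) : t ^ n * h * (t ^ n)⁻¹ ∈ H := by
  simpa using nz_zpow hn n hh

theorem nz_pow' (hn : Nz t H) (n : ℕ) {h : Γ} (hh : h ∈ H) : (t ^ n)⁻¹ * h * t ^ n ∈ H := by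
  simpa using nz_zpow hn (-n) hh

theorem w_mul (hn : Nz t H) {a b : Fin m → ℕ} {g g' : Fin m → Γ} (hg : g ∈ W H t a)
    (hg' : g' ∈ W H t b) : g * g' ∈ W H t (a + b) := by
  intro l
  have := H.mul_mem (hg l) (nz_pow hn (a l) (hg' l))
  simpa [pow_add, mul_assoc] using this

theorem w_uniq (hi : ∀ n : ℤ, t ^ n ∈ H → n = 0) {a b : Fin m → ℕ} {g : Fin m → Γ}
    (ha : g ∈ W H t a) (hb : g ∈ W H t b) : a = b := by
  ext l
  have h1 := H.mul_mem (H.inv_mem (ha l)) (hb l)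
  have h2 : (g l * (t ^ a l)⁻¹)⁻¹ * (g l * (t ^ b l)⁻¹) = t ^ ((a l : ℤ) - (b l : ℤ)) := by
    simp [zpow_sub, mul_assoc]
  rw [h2] at h1
  have := hi _ h1
  omega

theorem w_sub {a : Fin m → ℕ} {g : Fin m → Γ} (ha : g ∈ W H t a) :
    g ∈ KH m (H ⊔ Subgroup.zpowers t) := by
  intro l
  have h1 : g l = g l * (t ^ a l)⁻¹ * t ^ a l := by simp
  rw [h1]
  exact Subgroup.mul_mem_sup (ha l) (pow_mem (Subgroup.mem_zpowers t) _)

theorem mem_sup_cyc (hn : Nz t H) {x : Γ} (hx : x ∈ H ⊔ Subgroup.zpowers t) :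
    ∃ n : ℤ, x * (t ^ n)⁻¹ ∈ H := by
  let S : Subgroup Γ :=
    { carrier := {x | ∃ n : ℤ, x * (t ^ n)⁻¹ ∈ H}
      one_mem' := ⟨0, by simp⟩
      mul_mem' := by
        rintro a b ⟨n, ha⟩ ⟨k, hb⟩
        refine ⟨n + k, ?_⟩
        have := H.mul_mem ha (nz_zpow hn n hb)
        simpa [zpow_add, mul_assoc] using this
      inv_mem' := by
        rintro a ⟨n, ha⟩
        refine ⟨-n, ?_⟩
        have := nz_zpow hn (-n) (H.inv_mem ha)
        simpa [mul_assoc] using this }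
  have h1 : H ⊔ Subgroup.zpowers t ≤ S := by
    refine sup_le (fun y hy => ⟨0, by simpa using hy⟩) ?_
    rintro _ ⟨n, rfl⟩
    exact ⟨n, by simp⟩
  exact h1 hx

theorem exists_w (hn : Nz t H) {g : Fin m → Γ} (hg : g ∈ KH m (H ⊔ Subgroup.zpowers t)) :
    ∃ k : ℕ, ∀ k', k ≤ k' → ∃ a, g * (fun _ => t ^ k') ∈ W H t a := by
  choose n hn' using fun l => mem_sup_cyc hn (hg l)
  refine ⟨∑ l, (n l).natAbs, fun k' hk => ⟨fun l => (n l + k').toNat, fun l => ?_⟩⟩
  have h1 : (n l).natAbs ≤ ∑ l, (n l).natAbs :=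
    Finset.single_le_sum (f := fun l => (n l).natAbs) (fun _ _ => Nat.zero_le _) (Finset.mem_univ l)
  have h2 : (((n l + k').toNat : ℕ) : ℤ) = n l + k' := by omega
  have h3 : t ^ (n l + k').toNat = t ^ n l * t ^ k' := by
    rw [← zpow_natCast, h2, zpow_add, zpow_natCast]
  have := hn' l
  simpa [h3, mul_assoc] using this

end Grp

end NiA

end Pool.Agent.MP_5c28a4_al.H89S
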