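import Pool.Agent.MP_5c28a4_al.H9S.NiB

/-!
The cyclic step: the symmetric elements satisfy the chain condition (leading coefficients for the
lexicographic order on the positions).
-/

set_option autoImplicit false

namespace Pool.Agent.MP_5c28a4_al.H89S

namespace NiA

open MonoidAlgebra

variable {Γ : Type} [Group Γ] {m : ℕ}

/-- the monomial of position `a` -/
noncomputable def XX (t : Γ) (a : Fin m → ℕ) : QQ (Fin m → Γ) := of ℤ _ (xx t a)

/-- its inverse -/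
noncomputable def XI (t : Γ) (a : Fin m → ℕ) : QQ (Fin m → Γ) := of ℤ _ (xx t a)⁻¹

/-- elements all of whose positions satisfy `q` -/
noncomputable def GG (H : Subgroup Γ) (t : Γ) (q : (Fin m → ℕ) → Prop) :
    Submodule ℤ (QQ (Fin m → Γ)) := Su {g | ∃ a, q a ∧ g ∈ W H t a}

/-- leading coefficients at the position `a` -/
noncomputable def JJ (H : Subgroup Γ) (t : Γ) (c : Submodule ℤ (QQ (Fin m → Γ))) (a : Fin m → ℕ) :
    Submodule ℤ (QQ (Fin m → Γ)) where
  carrier := {y | y ∈ Su (KH m H) ∧ ∃ f ∈ c, f - y * XX t a ∈ GG H t fun b => toLex b < toLex a}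
  add_mem' := by
    rintro y y' ⟨hy, f, hf, h⟩ ⟨hy', f', hf', h'⟩
    refine ⟨add_mem hy hy', f + f', add_mem hf hf', ?_⟩
    have := add_mem h h'
    rwa [add_mul, ← sub_add_sub_comm]
  zero_mem' := ⟨zero_mem _, 0, zero_mem _, by simp⟩
  smul_mem' := by
    rintro n y ⟨hy, f, hf, h⟩
    refine ⟨Submodule.smul_mem _ n hy, n • f, Submodule.smul_mem _ n hf, ?_⟩
    have := Submodule.smul_mem _ n h
    rwa [smul_mul_assoc, ← smul_sub]

theorem xX_add (t : Γ) (a b : Fin m → ℕ) : XX t (a + b) = XX t a * XX t b := by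
  rw [XX, xx_add, map_mul, XX, XX]

theorem xX_xI (t : Γ) (a : Fin m → ℕ) : XX t a * XI t a = 1 := by
  rw [XX, XI, ← map_mul, mul_inv_cancel, map_one]

theorem xI_xX (t : Γ) (a : Fin m → ℕ) : XI t a * XX t a = 1 := by
  rw [XX, XI, ← map_mul, inv_mul_cancel, map_one]

theorem xX_xI' (t : Γ) (a : Fin m → ℕ) (y : QQ (Fin m → Γ)) : XX t a * (XI t a * y) = y := by
  rw [← mul_assoc, xX_xI, one_mul]

theorem xI_xX' (t : Γ) (a : Fin m → ℕ) (y : QQ (Fin m → Γ)) : XI t a * (XX t a * y) = y := by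
  rw [← mul_assoc, xI_xX, one_mul]

theorem ac_xX (t : Γ) (σ : Equiv.Perm (Fin m)) (a : Fin m → ℕ) :
    ac σ (XX t a) = XX t (a ∘ σ) := ac_of σ _

theorem ac_xI (t : Γ) (σ : Equiv.Perm (Fin m)) (a : Fin m → ℕ) :
    ac σ (XI t a) = XI t (a ∘ σ) := ac_of σ _

variable {H : Subgroup Γ} {t : Γ}

theorem conj_kh (hn : Nz t H) (a : Fin m → ℕ) {y : QQ (Fin m → Γ)} (hy : y ∈ Su (KH m H)) :
    XX t a * y * XI t a ∈ Su (KH m H) :=
  conj_mem_su (S := KH m H) (U := KH m H) _ _ (fun _ hg l => nz_pow hn (a l) (hg l)) hy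

theorem conj_kh' (hn : Nz t H) (a : Fin m → ℕ) {y : QQ (Fin m → Γ)} (hy : y ∈ Su (KH m H)) :
    XI t a * y * XX t a ∈ Su (KH m H) :=
  conj_mem_su (S := KH m H) (U := KH m H) _ _ (fun _ hg l => nz_pow' hn (a l) (hg l)) hy

theorem gg_mono {q q' : (Fin m → ℕ) → Prop} (h : ∀ a, q a → q' a) : GG H t q ≤ GG H t q' :=
  supported_mono fun _ ⟨a, ha, hg⟩ => ⟨a, h a ha, hg⟩

theorem gg_mul (hn : Nz t H) {q q' q'' : (Fin m → ℕ) → Prop}
    (h : ∀ a b, q a → q' b → q'' (a + b)) {x y : QQ (Fin m → Γ)} (hx : x ∈ GG H t q)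
    (hy : y ∈ GG H t q') : x * y ∈ GG H t q'' := by
  refine mul_mem_su ?_ hx hy
  rintro g ⟨a, ha, hg⟩ g' ⟨b, hb, hg'⟩
  exact ⟨a + b, h a b ha hb, w_mul hn hg hg'⟩

theorem gg_ac (σ : Equiv.Perm (Fin m)) {q q' : (Fin m → ℕ) → Prop}
    (h : ∀ a, q a → q' (a ∘ σ)) {x : QQ (Fin m → Γ)} (hx : x ∈ GG H t q) :
    ac σ x ∈ GG H t q' := by
  refine ac_mem_su σ ?_ hx
  rintro g ⟨a, ha, hg⟩
  exact ⟨a ∘ σ, h a ha, fun l => hg (σ l)⟩

theorem gg_sub (q : (Fin m → ℕ) → Prop) : GG H t q ≤ Su (KH m (H ⊔ Subgroup.zpowers t)) :=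
  supported_mono fun _ ⟨_, _, hg⟩ => w_sub hg

theorem mul_xX {y : QQ (Fin m → Γ)} (hy : y ∈ Su (KH m H)) (a : Fin m → ℕ) :
    y * XX t a ∈ GG H t (· = a) := by
  refine mul_mem_su (T := {xx t a}) ?_ hy (of_mem_su rfl)
  rintro g hg _ rfl
  refine ⟨a, rfl, fun l => ?_⟩
  simpa [xx] using hg l

theorem gg_cases {q : (Fin m → ℕ) → Prop} {f : QQ (Fin m → Γ)} (hf : f ∈ GG H t q) :
    f = 0 ∨ ∃ a, q a ∧ f ∈ GG H t fun b => toLex b ≤ toLex a := by
  rcases f.coeff.support.eq_empty_or_nonempty with h0 | h0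
  · exact Or.inl (coeff_eq_zero.1 (Finsupp.support_eq_empty.1 h0))
  · have h1 : ∀ g : Fin m → Γ, ∃ a, g ∈ f.coeff.support → q a ∧ g ∈ W H t a := by
      intro g
      by_cases hg : g ∈ f.coeff.support
      · obtain ⟨a, ha⟩ := mem_supported.1 hf hg
        exact ⟨a, fun _ => ha⟩
      · exact ⟨0, fun h => (hg h).elim⟩
    choose p hp using h1
    obtain ⟨g, hg, hmax⟩ := Finset.exists_max_image f.coeff.support (fun g => toLex (p g)) h0
    exact Or.inr ⟨p g, (hp g hg).1, mem_supported.2 fun g' hg' =>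
      ⟨p g', hmax g' hg', (hp g' hg').2⟩⟩

theorem gg_split {a : Fin m → ℕ} {f : QQ (Fin m → Γ)}
    (hf : f ∈ GG H t fun b => toLex b ≤ toLex a) :
    ∃ y ∈ Su (KH m H), f - y * XX t a ∈ GG H t fun b => toLex b < toLex a := by
  have h1 : (GG H t fun b => toLex b ≤ toLex a) ≤
      (Su (KH m H)).map (LinearMap.mulRight ℤ (XX t a)) ⊔ GG H t fun b => toLex b < toLex a := by
    refine su_le ?_
    rintro g ⟨b, hb, hg⟩
    rcases hb.lt_or_eq with hb | hb
    · exact Submodule.mem_sup_right (of_mem_su ⟨b, hb, hg⟩)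
    · have hb' : b = a := hb
      subst hb'
      refine Submodule.mem_sup_left ⟨of ℤ _ (g * (xx t b)⁻¹), of_mem_su hg, ?_⟩
      rw [LinearMap.mulRight_apply, XX, ← map_mul, inv_mul_cancel_right]
  obtain ⟨_, ⟨y, hy, rfl⟩, z, hz, rfl⟩ := Submodule.mem_sup.1 (h1 hf)
  exact ⟨y, hy, by simpa using hz⟩

theorem jj_mono {c c' : Submodule ℤ (QQ (Fin m → Γ))} (h : c ≤ c') (a : Fin m → ℕ) :
    JJ H t c a ≤ JJ H t c' a := fun _ ⟨hy, f, hf, h1⟩ => ⟨hy, f, h hf, h1⟩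

theorem jj_anti (hi : ∀ n : ℤ, t ^ n ∈ H → n = 0) {c : Submodule ℤ (QQ (Fin m → Γ))}
    (hc : c ≤ AA m (H ⊔ Subgroup.zpowers t)) {a : Fin m → ℕ} {y : QQ (Fin m → Γ)}
    (hy : y ∈ JJ H t c a) (h0 : y ≠ 0) : Antitone a := by
  obtain ⟨hy, f, hf, h1⟩ := hy
  obtain ⟨h, hh⟩ := Finsupp.support_nonempty_iff.2 fun e => h0 (coeff_eq_zero.1 e)
  have hW : h * xx t a ∈ W H t a := fun l => by simpa [xx] using mem_supported.1 hy hh l
  have h2 : (f - y * XX t a).coeff (h * xx t a) = 0 := by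
    refine mem_supported'.1 h1 _ ?_
    rintro ⟨b, hb, hg⟩
    rw [w_uniq hi hg hW] at hb
    exact lt_irrefl _ hb
  have h3 : (y * XX t a).coeff (h * xx t a) = y.coeff h := by
    simp [XX]
  have h4 : f.coeff (h * xx t a) ≠ 0 := by
    rw [coeff_sub, Finsupp.sub_apply, h3, sub_eq_zero] at h2
    rw [h2]
    exact Finsupp.mem_support_iff.1 hh
  have h5 : f ∈ GG H t fun b => toLex b ≤ toLex a := by
    have := add_mem (gg_mono (q' := fun b => toLex b ≤ toLex a) (fun _ hb => hb.le) h1)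
      (gg_mono (q' := fun b => toLex b ≤ toLex a) (fun _ hb => by rw [hb]) (mul_xX hy a))
    rwa [sub_add_cancel] at this
  refine anti_of_max a fun σ => ?_
  have h6 : f.coeff ((h * xx t a) ∘ σ) ≠ 0 := by
    rw [← (hc hf).2 σ, ac_coeff]
    exact h4
  obtain ⟨b, hb, hg⟩ := mem_supported.1 h5 (Finsupp.mem_support_iff.2 h6)
  rw [w_uniq hi (a := a ∘ σ) (fun l => hW (σ l)) hg]
  exact hb

theorem orbit_sum {b : Fin m → ℕ} (hb : Antitone b) {w : QQ (Fin m → Γ)}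
    (hw : w ∈ GG H t (· = b)) (hs : ∀ σ : Equiv.Perm (Fin m), b ∘ σ = b → ac σ w = w) :
    ∃ O ∈ AA m (H ⊔ Subgroup.zpowers t), O - w ∈ GG H t fun b' => toLex b' < toLex b := by
  classical
  let s : Finset (QQ (Fin m → Γ)) := Finset.univ.image fun σ : Equiv.Perm (Fin m) => ac σ w
  have hs1 : ∀ y, y ∈ s ↔ ∃ σ : Equiv.Perm (Fin m), ac σ w = y := fun y => by simp [s]
  have hs2 : ∀ τ : Equiv.Perm (Fin m), ∀ y ∈ s, ac τ y ∈ s := by
    intro τ y hy
    obtain ⟨σ, rfl⟩ := (hs1 y).1 hy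
    exact (hs1 _).2 ⟨σ * τ, (ac_ac τ σ w).symm⟩
  have hw1 : w ∈ s := (hs1 w).2 ⟨1, ac_one w⟩
  refine ⟨∑ y ∈ s, y, ⟨Submodule.sum_mem _ fun y hy => ?_, fun τ => ?_⟩, ?_⟩
  · obtain ⟨σ, rfl⟩ := (hs1 y).1 hy
    exact gg_sub _ (gg_ac (q' := fun _ => True) σ (fun _ _ => trivial) hw)
  · rw [map_sum]
    refine Finset.sum_nbij' (ac τ) (ac τ⁻¹) (hs2 τ) (hs2 τ⁻¹) (fun y _ => ?_) (fun y _ => ?_)
      fun _ _ => rfl
    · rw [ac_ac, mul_inv_cancel, ac_one]
    · rw [ac_ac, inv_mul_cancel, ac_one]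
  · rw [← Finset.add_sum_erase s (fun y => y) hw1, add_sub_cancel_left]
    refine Submodule.sum_mem _ fun y hy => ?_
    obtain ⟨hne, hy⟩ := Finset.mem_erase.1 hy
    obtain ⟨σ, rfl⟩ := (hs1 y).1 hy
    refine gg_ac σ ?_ hw
    rintro _ rfl
    exact lt_of_le_of_ne (max_of_anti _ hb σ) fun e => hne (hs σ e)

theorem jj_step (hn : Nz t H) {c : Submodule ℤ (QQ (Fin m → Γ))}
    (hc : Cl (AA m (H ⊔ Subgroup.zpowers t) : Set (QQ (Fin m → Γ))) c) {a e b : Fin m → ℕ}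
    (hb : Antitone b) (he : ∀ l l', b l = b l' → e l = e l') {y r : QQ (Fin m → Γ)}
    (hy : y ∈ JJ H t c (a + e)) (hr : r ∈ (AA m H : Set (QQ (Fin m → Γ)))) :
    y * (XX t a * r * XI t a) ∈ JJ H t c (a + e + b) := by
  obtain ⟨hy, f, hf, h1⟩ := hy
  have hw : XI t e * r * XX t e * XX t b ∈ GG H t (· = b) := mul_xX (conj_kh' hn e hr.1) b
  obtain ⟨O, hO, h2⟩ := orbit_sum hb hw fun σ hσ => by
    have h3 : e ∘ σ = e := funext fun l => he _ _ (congrFun hσ l)
    rw [map_mul, map_mul, map_mul, ac_xI, ac_xX, ac_xX, hr.2, h3, hσ]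
  refine ⟨kh_mul hy (conj_kh hn a hr.1), f * O, hc f hf O hO, ?_⟩
  have h3 : O ∈ GG H t fun b' => toLex b' ≤ toLex b := by
    have := add_mem (gg_mono (q' := fun b' => toLex b' ≤ toLex b) (fun _ h => h.le) h2)
      (gg_mono (q' := fun b' => toLex b' ≤ toLex b) (fun _ h => by rw [h]) hw)
    rwa [sub_add_cancel] at this
  have h4 : f * O - y * (XX t a * r * XI t a) * XX t (a + e + b) =
      (f - y * XX t (a + e)) * O + y * XX t (a + e) * (O - XI t e * r * XX t e * XX t b) := by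
    simp only [xX_add, mul_sub, sub_mul, mul_assoc, xX_xI', xI_xX']
    abel
  rw [h4]
  refine add_mem (gg_mul hn (fun a' b' ha' hb' => ?_) h1 h3)
    (gg_mul hn (fun a' b' ha' hb' => ?_) (mul_xX hy (a + e)) h2)
  · exact add_lt_add_of_lt_of_le (α := Lex (Fin m → ℕ)) ha' hb'
  · rw [ha']
    exact add_lt_add_of_le_of_lt (α := Lex (Fin m → ℕ)) le_rfl hb'

theorem jj_stab (hn : Nz t H) (hi : ∀ n : ℤ, t ^ n ∈ H → n = 0) (hp : PP m H)
    (c : ℕ → Submodule ℤ (QQ (Fin m → Γ))) (hc : Monotone c)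
    (h1 : ∀ n, c n ≤ AA m (H ⊔ Subgroup.zpowers t))
    (h2 : ∀ n, Cl (AA m (H ⊔ Subgroup.zpowers t) : Set (QQ (Fin m → Γ))) (c n)) :
    ∃ N, ∀ n, N ≤ n → ∀ a, JJ H t (c n) a ≤ JJ H t (c N) a := by
  by_contra hcon
  have h3 : ∀ N, ∃ n, N ≤ n ∧ ∃ a y, y ∈ JJ H t (c n) a ∧ y ∉ JJ H t (c N) a := by
    intro N
    by_contra h4
    refine hcon ⟨N, fun n hn' a y hy => ?_⟩
    by_contra h5
    exact h4 ⟨n, hn', a, y, hy, h5⟩
  choose nx hnx p yy hy1 hy2 using h3
  obtain ⟨N, hN⟩ : ∃ N : ℕ → ℕ, ∀ k, N (k + 1) = nx (N k) :=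
    ⟨fun k => Nat.rec 0 (fun _ n => nx n) k, fun _ => rfl⟩
  have hNm : Monotone N := monotone_nat_of_le_succ fun k => by rw [hN]; exact hnx _
  have hanti : ∀ k, Antitone (p k) := fun k =>
    jj_anti hi (h1 _) (hy1 k) fun e => hy2 k (by rw [e]; exact zero_mem _)
  obtain ⟨φ, hφ, h4⟩ := subseq (Finset.univ : Finset (Fin m ⊕ Fin m × Fin m))
    fun s k => Sum.elim (fun l => p (N k) l) (fun ll => p (N k) ll.1 - p (N k) ll.2) s
  let a : ℕ → Fin m → ℕ := fun k => p (N (φ k))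
  have hA : ∀ k, Antitone (a k) := fun k => hanti _
  have hA1 : ∀ i j, i ≤ j → ∀ l, a i l ≤ a j l := by
    intro i j hij l
    rcases hij.lt_or_eq with hij | rfl
    · rcases h4 (Sum.inl l) (Finset.mem_univ _) with h | h
      · exact (h i j hij).le
      · exact (h i j hij).le
    · exact le_rfl
  have hA2 : ∀ l l', (∀ i j, i < j → a i l - a i l' = a j l - a j l') ∨
      ∀ i j, i < j → a i l - a i l' < a j l - a j l' :=
    fun l l' => h4 (Sum.inr (l, l')) (Finset.mem_univ _)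
  obtain ⟨k, hk⟩ := Noe.seq hp (cl_kh H) (aa_one H) (aa_mul H)
    (fun k => XI t (a 0) * yy (N (φ k)) * XX t (a 0)) fun k => conj_kh' hn _ (hy1 _).1
  have h5 : sp (AA m H : Set (QQ (Fin m → Γ)))
      ((fun k => XI t (a 0) * yy (N (φ k)) * XX t (a 0)) '' Set.Iio k) ≤
      (JJ H t (c (N (φ k))) (a k)).comap
        ((LinearMap.mulLeft ℤ (XX t (a 0))).comp (LinearMap.mulRight ℤ (XI t (a 0)))) := by
    refine sp_le ?_
    rintro _ ⟨i, hik, rfl⟩ r hr
    have hik' : i < k := hik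
    have e1 : a 0 + (a i - a 0) = a i := funext fun l => by
      have := hA1 0 i (Nat.zero_le _) l
      simp only [Pi.add_apply, Pi.sub_apply]
      omega
    have e2 : a i + (a k - a i) = a k := funext fun l => by
      have := hA1 i k hik'.le l
      simp only [Pi.add_apply, Pi.sub_apply]
      omega
    have h6 : yy (N (φ i)) ∈ JJ H t (c (N (φ k))) (a 0 + (a i - a 0)) := by
      rw [e1]
      refine jj_mono (hc ?_) _ (hy1 (N (φ i)))
      rw [← hN]
      exact hNm (hφ hik')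
    have key : ∀ l l', l ≤ l' → a k l - a i l = a k l' - a i l' →
        a i l - a 0 l = a i l' - a 0 l' := by
      intro l l' hl h7
      have b1 := hA k hl
      have b2 := hA i hl
      have b3 := hA 0 hl
      have b4 := hA1 i k hik'.le l
      have b5 := hA1 i k hik'.le l'
      have b6 := hA1 0 i (Nat.zero_le _) l
      have b7 := hA1 0 i (Nat.zero_le _) l'
      rcases hA2 l l' with h | h
      · rcases Nat.eq_zero_or_pos i with rfl | hi0
        · omega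
        · have := h 0 i hi0
          omega
      · have := h i k hik'
        omega
    have h7 := jj_step hn (h2 (N (φ k))) (b := a k - a i) (fun l l' hl => by
      have b1 := hA k hl
      have b2 := hA i hl
      have b4 := hA1 i k hik'.le l
      have b5 := hA1 i k hik'.le l'
      simp only [Pi.sub_apply]
      rcases hA2 l l' with h | h
      · have := h i k hik'
        omega
      · have := h i k hik'
        omega) (fun l l' h7 => by
      rcases le_total l l' with hl | hl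
      · exact key l l' hl h7
      · exact (key l' l hl h7.symm).symm) h6 hr
    rw [e1, e2] at h7
    simpa only [Submodule.mem_comap, LinearMap.comp_apply, LinearMap.mulRight_apply,
      LinearMap.mulLeft_apply, mul_assoc, xX_xI'] using h7
  have h6 := h5 hk
  simp only [Submodule.mem_comap, LinearMap.comp_apply, LinearMap.mulRight_apply,
    LinearMap.mulLeft_apply, mul_assoc, xX_xI', xX_xI, mul_one] at h6
  exact hy2 _ h6

theorem shift (hn : Nz t H) {f : QQ (Fin m → Γ)} (hf : f ∈ Su (KH m (H ⊔ Subgroup.zpowers t))) :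
    ∃ k : ℕ, f * of ℤ (Fin m → Γ) (fun _ => t ^ k) ∈ GG H t fun _ => True := by
  choose k hk using fun g : f.coeff.support => exists_w hn (mem_supported.1 hf g.2)
  refine ⟨∑ g, k g, mul_mem_su (S := ↑f.coeff.support) (T := {fun _ => t ^ ∑ g, k g}) ?_
    (mem_supported.2 subset_rfl) (of_mem_su rfl)⟩
  rintro g hg _ rfl
  obtain ⟨a, ha⟩ := hk ⟨g, hg⟩ (∑ g, k g)
    (Finset.single_le_sum (f := k) (fun _ _ => Nat.zero_le _) (Finset.mem_univ _))
  exact ⟨a, trivial, ha⟩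

theorem noe_aa (hn : Nz t H) (hi : ∀ n : ℤ, t ^ n ∈ H → n = 0) (hp : PP m H) :
    Noe (AA m (H ⊔ Subgroup.zpowers t) : Set (QQ (Fin m → Γ)))
      (AA m (H ⊔ Subgroup.zpowers t)) := by
  intro c hc h1 h2
  obtain ⟨N, hN⟩ := jj_stab hn hi hp c hc h1 h2
  refine ⟨N, fun n hn' => le_antisymm (fun f hf => ?_) (hc hn')⟩
  have key : ∀ a : Lex (Fin m → ℕ), ∀ f ∈ c n, (f ∈ GG H t fun b => toLex b ≤ a) → f ∈ c N := by
    intro a
    induction a using WellFoundedLT.induction with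
    | ind a ih =>
      intro f hf hfa
      obtain ⟨y, hy, h3⟩ := gg_split (a := ofLex a) hfa
      obtain ⟨_, f', hf', h4⟩ := hN n hn' (ofLex a) ⟨hy, f, hf, h3⟩
      have h5 := sub_mem h3 h4
      rw [sub_sub_sub_cancel_right] at h5
      have h6 : f - f' ∈ c N := by
        rcases gg_cases h5 with h6 | ⟨a', ha', h6⟩
        · rw [h6]
          exact zero_mem _
        · exact ih (toLex a') ha' _ (sub_mem hf (hc hn' hf')) h6
      simpa using add_mem h6 hf'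
  have ht : t ∈ H ⊔ Subgroup.zpowers t := Subgroup.mem_sup_right (Subgroup.mem_zpowers t)
  obtain ⟨k, hk⟩ := shift hn (h1 n hf).1
  have h3 : f * of ℤ (Fin m → Γ) (fun _ => t ^ k) ∈ c N := by
    rcases gg_cases hk with h3 | ⟨a, _, h3⟩
    · rw [h3]
      exact zero_mem _
    · exact key (toLex a) _ (h2 n f hf _ (aa_const (pow_mem ht k))) h3
  have h4 := h2 N _ h3 _ (aa_const (inv_mem (pow_mem ht k)))
  rw [mul_assoc, ← map_mul] at h4
  have h5 : ((fun _ => t ^ k) * fun _ => (t ^ k)⁻¹ : Fin m → Γ) = 1 := funext fun _ => by simp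
  rwa [h5, map_one, mul_one] at h4

end NiA

end Pool.Agent.MP_5c28a4_al.H89S
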